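import Pool.Agent.OffDiag.Main

/-!
# MP_c36e95_co, Q1: lower density above one half, with a shift

For all positive integers `l`, `m`, every set of positive integers with lower density greater than
`1 / 2` contains `{m b₁ + l b₂ : b₁ ≠ b₂ ∈ B} + t` for an infinite `B` and a positive shift
`t ≤ l m (l + m)`.
-/

namespace Pool.Agent.Results.MP_c36e95_co.ShiftedHalf

open Filter

theorem result (l m : ℕ) (hl : 0 < l) (hm : 0 < m) (A : Set ℕ)
    (hA : (1 : ℝ) / 2 <
      liminf (fun N : ℕ => ((A ∩ Set.Icc 1 N).ncard : ℝ) / (N : ℝ)) atTop) :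
    ∃ (B : Set ℕ) (t : ℕ), B.Infinite ∧ (∀ b ∈ B, 0 < b) ∧ 0 < t ∧ t ≤ l * m * (l + m) ∧
      ∀ b₁ ∈ B, ∀ b₂ ∈ B, b₁ ≠ b₂ → m * b₁ + l * b₂ + t ∈ A := by
  obtain ⟨c, hc1, hc2⟩ := exists_between hA
  have h1 := OffDiag.coI_sum_le hc2
  have hD : 0 ≤ 1 - c := by
    by_contra hcon
    push Not at hcon
    obtain ⟨X, hX, hX1⟩ := (h1.and (eventually_ge_atTop 1)).exists
    have h2 : 0 ≤ ∑ n ∈ Finset.range X, OffDiag.coI A n :=
      Finset.sum_nonneg fun n _ => OffDiag.coI_nonneg _ _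
    have h3 : (1 : ℝ) ≤ X := by exact_mod_cast hX1
    nlinarith
  obtain ⟨t, ht, ht', u, hu1, hu2⟩ := OffDiag.seq_shift hm hl hD (by linarith) h1
  refine ⟨Set.range (fun i => u (i + 1)), t, ?_, ?_, ht, ?_, ?_⟩
  · exact Set.infinite_range_of_injective fun i j hij => by
      have := hu1.injective hij
      omega
  · rintro _ ⟨i, rfl⟩
    have h2 : u 0 < u (i + 1) := hu1 (by omega)
    exact lt_of_le_of_lt (Nat.zero_le _) h2
  · calc t ≤ m * (l + m) * l := ht'
      _ = l * m * (l + m) := by ring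
  · rintro _ ⟨i, rfl⟩ _ ⟨j, rfl⟩ hne
    have hij : i ≠ j := fun h => hne (by rw [h])
    rcases lt_or_gt_of_ne hij with h | h
    · exact (hu2 (i + 1) (j + 1) (by omega)).1
    · have h2 := (hu2 (j + 1) (i + 1) (by omega)).2
      have h3 : m * u (i + 1) + l * u (j + 1) + t = l * u (j + 1) + m * u (i + 1) + t := by ring
      change m * u (i + 1) + l * u (j + 1) + t ∈ A
      rw [h3]
      exact h2

end Pool.Agent.Results.MP_c36e95_co.ShiftedHalf
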