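import Pool.Agent.OffDiag.Main

/-!
# MP_c36e95_co, Q2: lower density above `1 - 1 / (2 (l + m))`, without a shift

For all positive integers `l`, `m`, every set of positive integers with lower density greater than
`1 - 1 / (2 (l + m))` contains `{m b₁ + l b₂ : b₁ ≠ b₂ ∈ B}` for an infinite `B`.
-/

namespace Pool.Agent.Results.MP_c36e95_co.UnshiftedSharp

open Filter

theorem result (l m : ℕ) (hl : 0 < l) (hm : 0 < m) (A : Set ℕ)
    (hA : (1 : ℝ) - 1 / (2 * ((l : ℝ) + (m : ℝ))) <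
      liminf (fun N : ℕ => ((A ∩ Set.Icc 1 N).ncard : ℝ) / (N : ℝ)) atTop) :
    ∃ B : Set ℕ, B.Infinite ∧ (∀ b ∈ B, 0 < b) ∧
      ∀ b₁ ∈ B, ∀ b₂ ∈ B, b₁ ≠ b₂ → m * b₁ + l * b₂ ∈ A := by
  obtain ⟨c, hc1, hc2⟩ := exists_between hA
  have h1 := OffDiag.coI_sum_le hc2
  have hlm : (0 : ℝ) < 2 * ((l : ℝ) + (m : ℝ)) := by positivity
  have hD : 0 ≤ 1 - c := by
    by_contra hcon
    push Not at hcon
    obtain ⟨X, hX, hX1⟩ := (h1.and (eventually_ge_atTop 1)).exists
    have h2 : 0 ≤ ∑ n ∈ Finset.range X, OffDiag.coI A n :=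
      Finset.sum_nonneg fun n _ => OffDiag.coI_nonneg _ _
    have h3 : (1 : ℝ) ≤ X := by exact_mod_cast hX1
    nlinarith
  have hD1 : 2 * ((l : ℝ) + m) * (1 - c) < 1 := by
    have h2 : 1 - c < 1 / (2 * ((l : ℝ) + (m : ℝ))) := by linarith
    rw [lt_div_iff₀ hlm] at h2
    linarith
  obtain ⟨u, hu1, hu2⟩ := OffDiag.seq_noshift hm hl hD hD1 h1
  refine ⟨Set.range (fun i => u (i + 1)), ?_, ?_, ?_⟩
  · exact Set.infinite_range_of_injective fun i j hij => by
      have := hu1.injective hij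
      omega
  · rintro _ ⟨i, rfl⟩
    have h2 : u 0 < u (i + 1) := hu1 (by omega)
    exact lt_of_le_of_lt (Nat.zero_le _) h2
  · rintro _ ⟨i, rfl⟩ _ ⟨j, rfl⟩ hne
    have hij : i ≠ j := fun h => hne (by rw [h])
    rcases lt_or_gt_of_ne hij with h | h
    · exact (hu2 (i + 1) (j + 1) (by omega)).1
    · have h2 := (hu2 (j + 1) (i + 1) (by omega)).2
      have h3 : m * u (i + 1) + l * u (j + 1) = l * u (j + 1) + m * u (i + 1) := by ring
      change m * u (i + 1) + l * u (j + 1) ∈ A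
      rw [h3]
      exact h2

end Pool.Agent.Results.MP_c36e95_co.UnshiftedSharp
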